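import Pool.Agent.Lib.MP_99e3ed_co.H91.All

set_option autoImplicit false

/-! Q1 in the terms of the problem: the expected neighbourhood of a random independent set. -/

open Finset
open Classical

namespace Pool.Agent.Results.MP_99e3ed_co.ExpectedNeighbourhood

/-- the disjoint union of `m` copies of the complete bipartite graph `K_{d,d}` -/
def copiesKdd (d m : ℕ) : SimpleGraph (Fin m × Bool × Fin d) where
  Adj x y := x.1 = y.1 ∧ x.2.1 ≠ y.2.1
  symm := ⟨fun _ _ h => ⟨h.1.symm, h.2.symm⟩⟩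
  loopless := ⟨fun _ h => h.2 rfl⟩

/-- `N(I)`: the vertices adjacent to at least one vertex of `I` -/
noncomputable def neighbours {V : Type} [Fintype V] (G : SimpleGraph V) (I : Finset V) :
    Finset V :=
  univ.filter (fun v => ∃ u ∈ I, G.Adj u v)

/-- the independent sets of size `k` -/
noncomputable def indepSets {V : Type} [Fintype V] (G : SimpleGraph V) (k : ℕ) :
    Finset (Finset V) :=
  univ.filter (fun I => (∀ u ∈ I, ∀ v ∈ I, ¬ G.Adj u v) ∧ I.card = k)

/-- `E_G[|N(I_k)|]`: the average of `|N(I)|` over all independent sets `I` of size `k` -/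
noncomputable def expectedNeighbours {V : Type} [Fintype V] (G : SimpleGraph V) (k : ℕ) : ℝ :=
  (∑ I ∈ indepSets G k, ((neighbours G I).card : ℝ)) / (indepSets G k).card

lemma indepSets_eq {V : Type} [Fintype V] (G : SimpleGraph V) (k : ℕ) :
    indepSets G k = G.indepSetFinset k := by
  ext I
  rw [indepSets, mem_filter, SimpleGraph.mem_indepSetFinset_iff, SimpleGraph.isNIndepSet_iff]
  constructor
  · rintro ⟨-, h1, h2⟩
    exact ⟨fun u hu v hv _ => h1 u (by exact_mod_cast hu) v (by exact_mod_cast hv), h2⟩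
  · rintro ⟨h1, h2⟩
    exact ⟨Finset.mem_univ _, fun u hu v hv h => h1 (by exact_mod_cast hu) (by exact_mod_cast hv)
      h.ne h, h2⟩

lemma expected_eq {V : Type} [Fintype V] (G : SimpleGraph V) (k : ℕ) :
    expectedNeighbours G k = ((Pool.Agent.Lib.MP_99e3ed_co.expNbhd G k : ℚ) : ℝ) := by
  unfold expectedNeighbours Pool.Agent.Lib.MP_99e3ed_co.expNbhd
  rw [indepSets_eq]
  push_cast
  rfl

theorem result (d m : ℕ) (hd : 1 ≤ d) (V : Type) [Fintype V] (hV : Fintype.card V = 2 * d * m)
    (G : SimpleGraph V) (hG : G.IsRegularOfDegree d) (k : ℕ) (_hk1 : 1 ≤ k)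
    (hk : k ≤ G.indepNum) :
    (indepSets G k).Nonempty ∧ (indepSets (copiesKdd d m) k).Nonempty ∧
      expectedNeighbours (copiesKdd d m) k ≤ expectedNeighbours G k := by
  have e : copiesKdd d m = Pool.Agent.Lib.MP_99e3ed_co.kddUnion d m := by
    ext x y
    rw [Pool.Agent.Lib.MP_99e3ed_co.kdd_adj]
    rfl
  rw [e]
  refine ⟨?_, ?_, ?_⟩
  · rw [indepSets_eq]
    exact Finset.card_pos.1 (Pool.Agent.Lib.MP_99e3ed_co.H91.ic_pos G k hk)
  · have h := Pool.Agent.Lib.MP_99e3ed_co.H91.kdd_ic_pos d m hd hV G hG k hk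
    have h2 : 0 < (indepSets (Pool.Agent.Lib.MP_99e3ed_co.kddUnion d m) k).card := by
      rw [indepSets_eq]
      exact h
    exact Finset.card_pos.1 h2
  · rw [expected_eq, expected_eq]
    exact_mod_cast Pool.Agent.Lib.MP_99e3ed_co.H91.expectation d m hd hV G hG k hk

end Pool.Agent.Results.MP_99e3ed_co.ExpectedNeighbourhood
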