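import Pool.Agent.Lib.MP_99e3ed_co.H90.Kahn

set_option autoImplicit false

open Classical

namespace Pool.Agent.Results.MP_99e3ed_co.KahnCounts

open Pool.Agent.Lib.MP_99e3ed_co

/-- **Theorem** (the conjecture of Kahn on independent sets of each size, in a form which also covers
irregular graphs). Let `d ≥ 1` and let `G` be a graph of maximum degree at most `d`, with
`2 * d * q + r` vertices and at least `d ^ 2 * q` edges. Then, for every `k`, `G` has at most as many
independent sets of size `k` as the disjoint union of `q` copies of `K_{d,d}` and `r` isolated
vertices.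

For `r = 0` the hypotheses say exactly that `G` is `d`-regular on `n = 2 * d * q` vertices, and the
conclusion says that `H_{d,n}` maximises the number of independent sets of every size `k`. -/
theorem result (d : ℕ) (hd : 1 ≤ d) (q r : ℕ) (V : Type*) [Fintype V] (G : SimpleGraph V)
    (hV : Fintype.card V = 2 * d * q + r) (hdeg : ∀ v, G.degree v ≤ d)
    (hE : d ^ 2 * q ≤ G.edgeFinset.card) (k : ℕ) :
    (G.indepSetFinset k).card ≤
      ((kddUnion d q ⊕g (⊥ : SimpleGraph (Fin r))).indepSetFinset k).card :=
  H90.kahn_general d q r hd hV G hdeg hE k

end Pool.Agent.Results.MP_99e3ed_co.KahnCounts
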